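import Pool.Agent.W5h58.VL.Final

/-!
# The standard conjecture of Hodge type for all products of almost all members of families with
# large monodromy, without the Tate conjecture

Let `Y` be a smooth projective variety over an algebraic closure of a finite field whose cohomology
is spanned by algebraic classes, for example a projective space. Let `F i`, for `i` in a finite set,
be families of varieties `X_s` over `Y` whose cohomology is the sum of the pull-back of the
cohomology of `Y` and of the vanishing part `P_s` of the cohomology of degree `dim X_s` (on which the
Gysin map is zero), with large symplectic or orthogonal monodromy. The number `e i` of the
eigenvalues `± q ^ (dim / 2)` of the Frobenius endomorphism on `P_s` which are forced by the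
monodromy group is `0`, `1` or `2`. It is `0` for the families of odd dimension. It is `1` if the
dimension is even and the rank of `P_s` is odd, for example for the **hypersurfaces of even
dimension and of even degree**: the Frobenius endomorphism has always an eigenvalue
`± q ^ (dim / 2)`, the Tate conjecture predicts that (over the quadratic extension) the line `L` of
the eigenvectors is spanned by an algebraic class, but for a general member nothing is known about
it.

**Theorem.** For all `ε > 0` and all large `m`, for all but at most `ε * ∏ i, #S_i(m)` of the tuples
`s` in the product of the sets `S_i(m)` of the parameters with coordinates in the field with `p ^ m`
elements, and for all (ample) divisors `D i` on the members `X_{i, s_i}`, the standard conjecture of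
Hodge type holds, in all codimensions, for **all products** of the members, with any number of
factors and any repetitions, and the sum of the pull-backs of the divisors.

In `Pool.Agent.Results.MP_361a6f_ag.AlmostAllProducts` this is proved with the following hypotheses
for the members with `e i ≠ 0`: the line `L` is spanned by an algebraic class (the Tate
conjecture), and the conjecture of Hodge type holds for the member. Here **nothing of this is
assumed for `e i = 1`**. The hypotheses (`Pool.Agent.W5h58.Lif.IsPolarization`) are

* the hard Lefschetz theorem, the Riemann hypothesis, and the conjecture of Hodge type for the
  cycles on the member whose classes are pull-backs of classes on `Y` (for hypersurfaces these are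
  the multiples of the powers of the class of a hyperplane); for surfaces, the conjecture of Hodge
  type for all divisors, which is the Hodge index theorem;
* (`form`) in almost all of the theories `T l`, `l ≠ p`, with coefficients in subfields of the fields
  of the `l`-adic numbers, the cohomology of `Y` is spanned by algebraic classes, the vanishing
  cohomology has a basis in which the form `(-1) ^ n tr (x y)`, `2 n = dim`, has the same matrix `G`
  with rational coefficients and a **positive determinant**, and the characteristic polynomial of
  Frobenius is the same as in `W`. If the member and `Y` can be lifted to characteristic zero
  together with the morphism to `Y`, and the morphism is finite (for hypersurfaces this is so), then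
  this holds for the `l`-adic theories: take the vanishing part of the Betti cohomology of the lift;
  its form has by the Hodge-Riemann relations an even number of negative squares, because complex
  conjugation exchanges the types `(a, 2 n - a)` and `(2 n - a, a)`, and the sign on the type
  `(n, n)` is plus.

So the theorem gives unconditionally the conjecture of Hodge type for all products of almost all
hypersurfaces of odd dimension and of almost all hypersurfaces of even dimension and even degree.

**The proof.** Let `w` be an eigenvector in the line `L` of a member with `e = 1`. The projector to
`L` is a polynomial in the Frobenius endomorphism, up to classes from `Y`; so `w ⊗ w`, suitably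
normalized, is an algebraic class with rational coefficients on `X × X`. The isometry `q ^ (-n) F` has
on the orthogonal complement of `L` no eigenvalues `± 1`, so the discriminant of this complement is
given by the characteristic polynomial (its alternating form `(x, (g - g⁻¹) y)` is not degenerate);
so the square of `w` is `det G` times a positive rational number, given by the characteristic
polynomial, times a square in the coefficient field. So one can choose in all the theories `T l` (and
in `W`) the eigenvector `w` with one and the same square `c`, a **positive** rational number. Such a
virtual class `w` is rational against all algebraic classes: the number `tr (w z)` has the square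
`tr ((w ⊗ w) (z ⊗ z))`, a rational number which is a square in almost all the fields of `l`-adic
numbers; so it is the square of a rational number. The same holds for all products of algebraic
classes and of pull-backs of the classes `w` to the products of the members. The proof of the
conjecture of Hodge type for products without exotic relations (by real structures) is then
carried out for the rational space of the virtual classes. By the sieve for families with large
monodromy all algebraic classes on the products are linear combinations of products of virtual
classes and of classes on products of two factors.
-/

open CategoryTheory AlgebraicGeometry Polynomial

universe u v

namespace Pool.Agent.Results.MP_ffcd14_ag.AlmostAllWithoutTate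

open Pool.Agent.H914 Pool.Agent.W534 Pool.Agent.W458.MF VarClass Obj WeilCohomology
  Pool.Agent.H281R3.HT Pool.Agent.W458.MF.Pol

/-- **The standard conjecture of Hodge type for all products of almost all members of families
with large monodromy, without the Tate conjecture for the members with one forced eigenvalue.** -/
theorem result {k : Type u} [Field k] {𝒱 : VarClass k} {ops : CycleOps 𝒱}
    (W : WeilCohomology.{u, v} ops) [IsAlgClosed W.K] (σ : W.K →+* ℂ) (p : ℕ)
    (hp : p.Prime) (Φ : FrobSystem W p) (T : ℕ → WeilCohomology.{u, 0} ops)
    (hT : ∀ l, l.Prime → l ≠ p → Pool.Agent.W5h58.Lif.IsPadic (T l).K l)
    (Y : 𝒱.Obj) (hY : Pool.Agent.W5h58.Lif.IsAll (algSpan W Y))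
    {I : Type} [Fintype I] (F : I → Family W Y) (e : I → ℕ)
    (hF : ∀ i, HasLargeMonodromy (F i) Φ (e i)) (ε : ℝ) (hε : 0 < ε) :
    ∃ m₀ : ℕ, ∀ m ≥ m₀, ({s : ∀ i, (F i).S m |
        ¬ ∀ D : ∀ i, ((F i).member m (s i)).obj.Cycles,
          (∀ i, Pool.Agent.W5h58.Lif.IsPolarization T ((F i).member m (s i)) Φ m (e i) (D i)) →
            HodgeTypeForProducts W fun i => ⟨((F i).member m (s i)).obj, D i⟩}.ncard : ℝ) ≤
      ε * ∏ i, (Nat.card ((F i).S m) : ℝ) :=
  Pool.Agent.W5h58.VL.final_V W σ p hp Φ T hT Y hY F e hF ε hε

end Pool.Agent.Results.MP_ffcd14_ag.AlmostAllWithoutTate
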