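import Pool.Agent.W5h89.Disc.Conv

/-!
# The number of the negative squares is even, and the standard conjecture of Hodge type for
# varieties with at most one new class

Let `X` be a smooth projective variety of dimension `d` over an algebraic closure of the field with
`p` elements, `D` an ample divisor, `f` the Frobenius endomorphism of a model of `X` over a field with
`q` elements over which all the algebraic classes are defined, and `2 j ≤ d`. Let
`⟨z, w⟩ = (-1) ^ j deg (z · D ^ (d - 2 j) · w)` on the cycles of codimension `j` which are primitive
modulo numerical equivalence. For the primes `l ≠ p` let `W l` be the `l`-adic cohomology; only the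
following is used about it:

* the coefficient field embeds into the field of `l`-adic numbers;
* `f^*` multiplies the orientation by `q ^ d` and the classes of cycles of codimension `i` by `q ^ i`;
* the conjecture `A` of Lefschetz type for `X` and `D` (a consequence of the Lefschetz standard
  conjecture, which is assumed in the problem);
* `HasInvariants`: the form `(-1) ^ j tr (x D ^ (d - 2 j) y)` on the primitive cohomology of degree
  `2 j` has, in a suitable basis, the discriminant `δ`, a positive rational number which does not
  depend on `l`, and `f^*` has there the characteristic polynomial `χ`, which has integral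
  coefficients and does not depend on `l`. The complex roots of `χ` have the absolute value `q ^ j`,
  and `- q ^ j` is not a root.

For the varieties which can be lifted with `D` to characteristic zero the assumption on `δ` holds:
take a basis of the primitive cohomology with rational coefficients of the lift; by the
Hodge-Riemann relations the form has, over the real numbers, the negative part
`⨁ P ^ (a, 2 j - a)`, `a - j` odd, and the dimension of this space is even because the complex
conjugation exchanges `a` and `2 j - a`. The assumption on `χ` holds by the theorem of Deligne
(for `-q ^ j`, replace `q` by `q ^ 2`).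

Let `τ` be the multiplicity of the root `q ^ j` of `χ` (the number of the independent Tate
classes in the primitive cohomology of degree `2 j`, if Frobenius is semisimple). **Theorem.**

(1) There are at most `τ` pairwise orthogonal primitive cycles with nonzero squares.

(2) If there are `τ` of them (that is, if the Tate conjecture holds in the primitive cohomology of
degree `2 j`), then the number of the negative squares is even.

(3) If there are `t ≥ τ - 1` pairwise orthogonal primitive cycles with positive squares, then the
standard conjecture of Hodge type holds for `X` and `D` in the codimension `j`. No Tate conjecture is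
assumed here.

For the cycles in (3) one can take the specializations of the algebraic cycles of a lift of `(X, D)`:
their squares are positive by the Hodge-Riemann relations. So the conjecture holds for the reduction
`X` if the lift has at least `τ - 1` independent primitive algebraic classes of codimension `j`. With
`t = 0`: it holds for all smooth hypersurfaces (and complete intersections) of dimension `2 j` for
which the Frobenius endomorphism has, over all finite extensions, at most one Tate eigenvalue on the
primitive cohomology. If the degree of a hypersurface is even, then the rank of the primitive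
cohomology is odd, so there always is such an eigenvalue, and it is not known whether the Tate
class is algebraic.

The proof: let `z` be `τ` orthogonal cycles. Let `V` be the primitive cohomology, and `V'` the
orthogonal complement of the classes of the cycles. The isometry `g = q ^ (-j) f^*` has on `V'` neither
the eigenvalue `1` nor `-1`, so its alternating form `(x, (g - g⁻¹) y)` is not degenerate, and its
discriminant is a square; so the discriminant of `V'` is `ψ (1) ψ (-1) / ψ (0)` modulo squares, where
`ψ` is the characteristic polynomial of `g` on `V'`. It does not depend on `l`, and the number is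
positive, as `ψ` has no real roots. Hence the product of the squares of the cycles, of `δ` and of a
positive rational number is a rational number which is a square in the `l`-adic numbers for all
`l ≠ p`, so it is positive.
-/

universe u v

open CategoryTheory AlgebraicGeometry Polynomial

namespace Pool.Agent.Results.MP_ffcd14_ag.DiscriminantParity

open Pool.Agent.H914 Pool.Agent.H914.VarClass.Obj Pool.Agent.H281R3.HT Pool.Agent.W539.Ker
  Pool.Agent.W5h89.Half Pool.Agent.W5h89.Disc

/-- **The parity of the number of the negative squares, and the standard conjecture of Hodge type
for varieties with at most one new class.** -/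
theorem result {k : Type u} [Field k] {𝒱 : VarClass k} {ops : CycleOps 𝒱} (p : ℕ)
    (W : ℕ → WeilCohomology.{u, v} ops)
    (hW : ∀ (l : ℕ) [Fact l.Prime], l ≠ p → Nonempty ((W l).K →+* ℚ_[l]))
    (P : Polarized 𝒱) (hD : P.X.IsCyc 1 P.D) (f : P.X ⟶ P.X) (q : ℕ) (hq : 0 < q)
    (hf : ∀ l, l.Prime → l ≠ p → IsFrobenius (W l) P.X f q)
    (hA : ∀ l, l.Prime → l ≠ p → LefschetzA (W l) P.X P.D) (j : ℕ) (hj : 2 * j ≤ P.X.dim)
    (r : ℕ) (δ : ℚ) (hδ : 0 < δ) (χ : ℤ[X])
    (hI : ∀ l, l.Prime → l ≠ p → HasInvariants (W l) P f j r δ χ)
    (hRH : ∀ z : ℂ, aeval z χ = 0 → ‖z‖ = (q : ℝ) ^ j) (hneg : χ.eval (-(q : ℤ) ^ j) ≠ 0)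
    (τ : ℕ) (hτ : τ = χ.rootMultiplicity ((q : ℤ) ^ j)) :
    (∀ (t : ℕ) (z : Fin t → P.X.Cycles), IsOrthogonal ops P j z →
      (∀ a, pairing ops P.X P.D j (z a) (z a) ≠ 0) →
        t ≤ τ ∧ (t = τ → Even {a | pairing ops P.X P.D j (z a) (z a) < 0}.ncard)) ∧
    ∀ (t : ℕ) (z : Fin t → P.X.Cycles), IsOrthogonal ops P j z →
      (∀ a, 0 < pairing ops P.X P.D j (z a) (z a)) → τ ≤ t + 1 → HodgeIn ops P j := by
  subst hτ
  obtain ⟨h1, h2, h3⟩ := parity_main' p W hW hD hq hf hA hj hδ hI hRH hneg
  refine ⟨fun t z hz hz0 => ⟨h1 t z hz hz0, ?_⟩, h3⟩
  rintro rfl
  have h4 := even_neg (h2 z hz hz0)
  rw [Set.ncard_eq_toFinset_card', Set.toFinset_ofPred]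
  exact h4

end Pool.Agent.Results.MP_ffcd14_ag.DiscriminantParity
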