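import Pool.Agent.W5h89.Odd.Conv

/-!
# Products of varieties with absolutely irreducible transcendental cohomology of odd rank

Let `X a` be smooth projective varieties of even dimension `2 j a` over a field of characteristic
`p`, with ample divisors for which the hard Lefschetz theorem and the standard conjectures of
Lefschetz and of Hodge type hold; for instance, surfaces, where all this is known. For the
primes `l ≠ p` let `W l` be the `l`-adic cohomology and `Γ` the Galois group of a field of definition
of the varieties. The transcendental cohomology `T a` of `X a` is the orthogonal complement of the
algebraic classes. It is assumed that, for every `l ≠ p`,

* `T a` is contained in the middle degree `2 j a` (for surfaces: there is no cohomology in odd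
  degrees), it is absolutely irreducible under all subgroups of finite index of `Γ`, and its dimension
  is odd or `T a = 0`;
* the form `(-1) ^ (j a) tr (x y)` on the primitive cohomology of the middle degree has, in a suitable
  basis, a discriminant `δ a` which is a positive rational number and does not depend on `l`.

The last assumption holds if `X a` can be lifted with the divisor to characteristic zero: take a basis
of the primitive cohomology with rational coefficients of the lift; by the Hodge-Riemann relations
the form has, over the real numbers, the negative part `⨁ P ^ (i, 2 j - i)`, `i - j` odd, and the
dimension of this space is even because the complex conjugation exchanges `i` and `2 j - i`.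

**Theorem.** The standard conjecture of Hodge type and the conjecture that homological and numerical
equivalence coincide hold for all the products `X a × X b`, in all codimensions (`a = b` is
allowed).

(By the theorem `Pool.Agent.W552.hodge_matching` they then hold for the classes on all products of
any number of members of the family which are generated by the algebraic classes on the factors
and on the products of two factors, see `Pool.Agent.W5h89.Odd.family_matching`.)

The Tate conjecture is not assumed: `T a` and `T b` may or may not be isomorphic, and it does not
matter how many Tate classes are algebraic. For surfaces the products are of dimension four, where
cycles of codimension two are the first open case of the conjecture. There are such surfaces over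
the algebraic closures of function fields: if the monodromy group of a family of surfaces is Zariski
dense in the orthogonal group of the vanishing cohomology and the algebraic classes are the
ambient ones.

The proof. On a product the algebraic classes all of whose contractions with algebraic classes
vanish are the classes of homomorphisms `T a → T b`. By Schur's lemma such a class `c ≠ 0` is
an isomorphism, and it multiplies the forms by a number `λ`; the self-intersection number of
`c` is, up to sign, `λ` times the rank `n` of `T a`. So `λ` is a rational number which does not depend on
`l`. Comparing the discriminants gives `λ ^ n disc (T a) = disc (T b)` modulo squares; the
discriminant of `T a` is, up to squares, the quotient of `δ a` by the product of the squares of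
orthogonal primitive cycles, so it is a positive rational number modulo squares. As `n` is odd, the
product of `λ` with a positive rational number is a square in the fields of `l`-adic numbers for all
`l ≠ p`. So it is positive.
-/

universe u v w

open CategoryTheory AlgebraicGeometry

namespace Pool.Agent.Results.MP_ffcd14_ag.OddRankPairs

open Pool.Agent.H914 Pool.Agent.H281R3.HT Pool.Agent.W5h89.Odd

/-- **The standard conjectures of Hodge type and `D` for the products of two varieties with absolutely
irreducible transcendental cohomology of odd rank.** -/
theorem result {k : Type u} [Field k] {𝒱 : VarClass k} {ops : CycleOps 𝒱} (p : ℕ)
    (W : ℕ → WeilCohomology.{u, v} ops)
    (hW : ∀ (l : ℕ) [Fact l.Prime], l ≠ p → Nonempty ((W l).K →+* ℚ_[l]))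
    (Γ : Type w) [Group Γ] {ι : Type} (X : ι → Polarized 𝒱) (j r : ι → ℕ) (δ : ι → ℚ)
    (hj : ∀ a, (X a).X.dim = 2 * j a) (hδ : ∀ a, 0 < δ a)
    (h : ∀ l, l.Prime → l ≠ p → OddFamily (W l) Γ X j r δ) :
    ∀ l, l.Prime → l ≠ p → ∀ a b, HodgeAndD (W l) ((X a).prod ops (X b)) :=
  fun _ hl hlp a b => family_main p W hW hj hδ h hl hlp a b

end Pool.Agent.Results.MP_ffcd14_ag.OddRankPairs
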