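import Pool.Agent.W5h89.Half.Main

open CategoryTheory AlgebraicGeometry Filter Topology

universe u v

namespace Pool.Agent.Results.MP_ffcd14_ag.ZeroHalfLaw

open Pool.Agent.H914 Pool.Agent.H914.VarClass Pool.Agent.H914.VarClass.Obj
  Pool.Agent.H281R3.HT Pool.Agent.W539.Ker Pool.Agent.W5h89.Half

/-- **The zero-half law for the standard conjecture of Hodge type.** Let `X` be a smooth proper
variety with a divisor of positive degree which satisfies hard Lefschetz and the Lefschetz standard
conjecture, let `b` be the sum of its Betti numbers, and for a variety `V` let `N⁺(V)` and `N⁻(V)` be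
the largest numbers of pairwise orthogonal primitive cycles with positive, respectively negative
squares on `V` (summed over the codimensions up to half of the dimension). Let `Y` run through all
varieties with the same properties.
(1) The numbers `N⁺` and `N⁻` are well defined.
(2) For every `κ` the standard conjecture of Hodge type holds for `X ^ (κ + 1)`, or for all `Y` and
all `n`, `n = m (κ + 1) + r` with `r ≤ κ`, one has
`|N⁺ (X ^ n × Y) - N⁻ (X ^ n × Y)| ≤ (b ^ (κ + 1) - 2) ^ m * b ^ r * b(Y)`.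
(3) `N⁺ (X ^ (n + 1) × Y) + N⁻ (X ^ (n + 1) × Y) ≥ b ^ n / (n + 2) ^ (b ^ 2)` for all `n ≥ 1`.
(4) Either the standard conjecture of Hodge type holds for all powers of `X` (and `N⁻` vanishes on
all of them), or for every `Y` the proportion `N⁻ / (N⁺ + N⁻)` on `X ^ n × Y` tends to `1 / 2`. -/
theorem result {k : Type u} [Field k] {𝒱 : VarClass k} {ops : CycleOps 𝒱}
    (W : WeilCohomology.{u, v} ops) (P : Polarized 𝒱) (hP : Good W P) (b : ℕ)
    (hb : b = Module.finrank W.K (W.H P.X)) :
    (∀ Q, Good W Q → ∀ n j, 2 * j ≤ (tower ops P Q n).X.dim →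
      BddAbove {r | HasFamily W (tower ops P Q n).X (tower ops P Q n).D j 1 r} ∧
      BddAbove {r | HasFamily W (tower ops P Q n).X (tower ops P Q n).D j (-1) r}) ∧
    (∀ κ, HodgeStandard ops (power ops P κ) ∨ ∀ Q, Good W Q → ∀ n,
      |(index W (tower ops P Q n) 1 : ℤ) - index W (tower ops P Q n) (-1)| ≤
        ((b : ℤ) ^ (κ + 1) - 2) ^ (n / (κ + 1)) *
          ((b : ℤ) ^ (n % (κ + 1)) * Module.finrank W.K (W.H Q.X))) ∧
    (∀ Q, Good W Q → ∀ n, 1 ≤ n → b ^ n ≤ (index W (tower ops P Q (n + 1)) 1 +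
      index W (tower ops P Q (n + 1)) (-1)) * (n + 2) ^ (b ^ 2)) ∧
    ((∀ n, HodgeStandard ops (power ops P n) ∧ index W (power ops P n) (-1) = 0) ∨
      ∀ Q, Good W Q → Tendsto (fun n => (index W (tower ops P Q n) (-1) : ℝ) /
        (index W (tower ops P Q n) 1 + index W (tower ops P Q n) (-1))) atTop (𝓝 (1 / 2))) := by
  subst hb
  have hP' : GdP W P := gdP_of hP.div hP.hard hP.lefschetz hP.deg_pos
  have hQ' : ∀ Q, Good W Q → GdP W Q := fun Q hQ =>
    gdP_of hQ.div hQ.hard hQ.lefschetz hQ.deg_pos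
  have hpar := par_kop hP.div hP.hard hP.lefschetz
  refine ⟨fun Q hQ n j hj => bddAbove_family W (isCyc_tower hP.div hQ.div n) hj,
    fun κ => ?_, fun Q hQ n hn => growth_tower hP' (hQ' Q hQ) hpar n hn, ?_⟩
  · by_cases h : HodgeStandard ops (power ops P κ)
    · exact Or.inl h
    · exact Or.inr fun Q hQ n => signature_bound hP' (hQ' Q hQ) h n
  · by_cases hall : ∀ n, HodgeStandard ops (power ops P n)
    · left
      intro n
      obtain ⟨⟨g, G⟩, -⟩ := hP'.power n
      exact ⟨hall n, index_neg_eq_zero G.fr (hall n)⟩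
    · right
      push Not at hall
      obtain ⟨κ, hκ⟩ := hall
      exact fun Q hQ => half_law hP' (hQ' Q hQ) hpar hκ

end Pool.Agent.Results.MP_ffcd14_ag.ZeroHalfLaw
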